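import Pool.Agent.Helper61.QE.St2

/-! Project QD, part E, module COE: properties of the coefficients. -/

open MeasureTheory Set Filter Topology Complex
open scoped ContDiff ComplexConjugate ENNReal

namespace Pool.Agent.Helper21.QE

open Pool.Agent.Helper68.QC Pool.Agent.Helper61.QE

theorem coe_rf_rf (z : ℂ) : rf (rf z) = z := by
  unfold rf
  rw [map_div₀, map_one, Complex.conj_conj, one_div_one_div]

theorem coe_rf_norm (z : ℂ) : ‖rf z‖ = 1 / ‖z‖ := by
  unfold rf
  rw [norm_div, norm_one, RCLike.norm_conj]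

theorem coe_rf_lt {z : ℂ} (hz : 1 < ‖z‖) : ‖rf z‖ < 1 := by
  rw [coe_rf_norm, div_lt_one (by linarith)]
  exact hz

theorem coe_rf_gt {z : ℂ} (hz : ‖z‖ < 1) (h0 : z ≠ 0) : 1 < ‖rf z‖ := by
  rw [coe_rf_norm, one_lt_div (norm_pos_iff.mpr h0)]
  exact hz

theorem coe_rf_ne {z : ℂ} (h0 : z ≠ 0) : rf z ≠ 0 := by
  unfold rf
  exact one_div_ne_zero ((map_ne_zero _).mpr h0)

theorem coe_ae_lin (a b : ℂ) (h : a ≠ 0 ∨ b ≠ 0) : ∀ᵐ z : ℂ, a * z + b ≠ 0 := by
  rw [ae_iff]
  have hs : {z : ℂ | ¬ (a * z + b ≠ 0)} ⊆ {-b / a} := by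
    intro z hz
    simp only [ne_eq, not_not, mem_ofPred_eq] at hz
    by_cases ha : a = 0
    · rw [ha, zero_mul, zero_add] at hz
      rcases h with h | h
      · exact absurd ha h
      · exact absurd hz h
    · rw [mem_singleton_iff, eq_div_iff ha]
      linear_combination hz
  exact measure_mono_null hs (by simp)

theorem coe_ae_den (A : SL) : ∀ᵐ z : ℂ, den A z ≠ 0 := by
  have h : A 1 0 ≠ 0 ∨ A 1 1 ≠ 0 := by
    by_contra hcon
    push Not at hcon
    have hd := A.det_coe
    rw [Matrix.det_fin_two, hcon.1, hcon.2] at hd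
    simp at hd
  exact coe_ae_lin _ _ h

theorem coe_ae_num (A : SL) : ∀ᵐ z : ℂ, A 0 0 * z + A 0 1 ≠ 0 := by
  have h : A 0 0 ≠ 0 ∨ A 0 1 ≠ 0 := by
    by_contra hcon
    push Not at hcon
    have hd := A.det_coe
    rw [Matrix.det_fin_two, hcon.1, hcon.2] at hd
    simp at hd
  exact coe_ae_lin _ _ h

theorem coe_ae_zero : ∀ᵐ z : ℂ, z ≠ 0 := by
  rw [ae_iff]
  have hs : {z : ℂ | ¬ (z ≠ 0)} ⊆ {0} := by
    intro z hz
    simpa using hz
  exact measure_mono_null hs (by simp)

theorem coe_ae_one : ∀ᵐ z : ℂ, ‖z‖ ≠ 1 := by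
  rw [ae_iff]
  have hs : {z : ℂ | ¬ (‖z‖ ≠ 1)} ⊆ Metric.sphere 0 1 := by
    intro z hz
    simpa using hz
  exact measure_mono_null hs (Measure.addHaar_sphere _ _ _)

/-- the reflection preserves almost everywhere statements -/
theorem coe_ae_rf {p : ℂ → Prop} (h : ∀ᵐ z : ℂ, p z) : ∀ᵐ z : ℂ, p (rf z) := by
  rw [ae_iff] at h ⊢
  have hs : {z : ℂ | ¬ p (rf z)} ⊆ {0} ∪ rf '' ({z : ℂ | ¬ p z} \ {0}) := by
    intro z hz
    by_cases h0 : z = 0
    · left; exact h0
    · right
      exact ⟨rf z, ⟨hz, coe_rf_ne h0⟩, coe_rf_rf z⟩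
  refine measure_mono_null hs (measure_union_null (by simp) ?_)
  apply addHaar_image_eq_zero_of_differentiableOn_of_addHaar_eq_zero
  · intro z hz
    have h0 : z ≠ 0 := hz.2
    have h1 : DifferentiableAt ℝ (fun z : ℂ => conj z) z :=
      (Complex.conjCLE : ℂ →L[ℝ] ℂ).differentiableAt
    have h3 : DifferentiableAt ℂ (fun z : ℂ => (1 : ℂ) / z) (conj z) :=
      (differentiableAt_const _).div differentiableAt_id ((map_ne_zero _).mpr h0)
    have h2 : DifferentiableAt ℝ (fun z : ℂ => (1 : ℂ) / conj z) z :=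
      (h3.restrictScalars ℝ).comp z h1
    exact h2.differentiableWithinAt
  · exact measure_mono_null sdiff_subset h

theorem coe_den_rf {A : SL} (hA : SU A) {z : ℂ} (h0 : z ≠ 0) (hd : den A z ≠ 0) :
    den A (rf z) * conj z = conj (mob A z) * conj (den A z) := by
  have e : mob A z * den A z = A 0 0 * z + A 0 1 := by
    unfold mob
    exact div_mul_cancel₀ _ hd
  have hz : conj z ≠ 0 := (map_ne_zero _).mpr h0
  have e2 : den A (rf z) * conj z = A 1 0 + A 1 1 * conj z := by
    unfold den rf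
    rw [add_mul, mul_assoc, one_div, inv_mul_cancel₀ hz, mul_one]
  rw [e2, ← map_mul, e, map_add, map_mul, hA.1, hA.2]
  ring

theorem coe_mob_ne {A : SL} {z : ℂ} (hn : A 0 0 * z + A 0 1 ≠ 0) (hd : den A z ≠ 0) :
    mob A z ≠ 0 := div_ne_zero hn hd

/-- the reflected coefficient is invariant -/
theorem coe_inv_sy (hSUB : StSUB) {A : SL} (hA : SU A) {μ : ℂ → ℂ} (hμ : InvB A μ) :
    InvB A (sy μ) := by
  have h1 := coe_ae_rf hμ
  filter_upwards [h1, coe_ae_zero, coe_ae_den A, coe_ae_num A] with z hz h0 hd hn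
  have hm := coe_mob_ne hn hd
  have e := coe_den_rf hA h0 hd
  have hrf : rf (mob A z) = mob A (rf z) := (hSUB.2.2.2.2.2.1 A hA z h0).symm
  unfold sy
  rw [hrf]
  have hz' : conj (μ (mob A (rf z))) * conj (den A (rf z)) ^ 2 =
      conj (μ (rf z)) * den A (rf z) ^ 2 := by
    have := congrArg (starRingEnd ℂ) hz
    simpa only [map_mul, map_pow, Complex.conj_conj] using this
  have e' : conj (den A (rf z)) * z = mob A z * den A z := by
    have := congrArg (starRingEnd ℂ) e
    simpa only [map_mul, map_pow, Complex.conj_conj] using this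
  have hcz : conj z ≠ 0 := (map_ne_zero _).mpr h0
  have hcm : conj (mob A z) ≠ 0 := (map_ne_zero _).mpr hm
  generalize mob A z = m at *
  generalize den A z = d at *
  generalize den A (rf z) = E at *
  generalize μ (mob A (rf z)) = p at *
  generalize μ (rf z) = q at *
  -- conj p * (m d)^2 conj z ^2 = conj q * (conj m conj d)^2 z ^ 2
  have key : conj p * (m * d) ^ 2 * conj z ^ 2 = conj q * (conj m * conj d) ^ 2 * z ^ 2 := by
    rw [← e', ← e]
    linear_combination (z ^ 2 * conj z ^ 2) * hz'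
  rw [mul_assoc, mul_assoc, div_mul_eq_mul_div, div_mul_eq_mul_div, mul_div_assoc', mul_div_assoc',
    div_eq_div_iff (pow_ne_zero _ hcm) (pow_ne_zero _ hcz)]
  linear_combination key

theorem coe_symm (μ : ℂ → ℂ) {z : ℂ} (h0 : z ≠ 0) :
    (μ (1 / conj z) + sy μ (1 / conj z)) * conj z ^ 2 = conj (μ z + sy μ z) * z ^ 2 := by
  have hcz : conj z ≠ 0 := (map_ne_zero _).mpr h0
  have e1 : (1 : ℂ) / conj z = rf z := rfl
  rw [e1]
  unfold sy
  rw [coe_rf_rf]
  have e2 : rf z ^ 2 / conj (rf z) ^ 2 = z ^ 2 / conj z ^ 2 := by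
    unfold rf
    rw [map_div₀, map_one, Complex.conj_conj]
    field_simp
  rw [e2, map_add, map_mul, map_div₀, map_pow, map_pow, Complex.conj_conj, Complex.conj_conj]
  field_simp
  ring

theorem coe_meas_rf : Measurable rf := by
  unfold rf
  exact measurable_const.div Complex.continuous_conj.measurable

theorem coe_meas_sy {μ : ℂ → ℂ} (hμ : Measurable μ) : Measurable (sy μ) := by
  unfold sy
  exact (Complex.continuous_conj.measurable.comp (hμ.comp coe_meas_rf)).mul
    ((measurable_id.pow_const 2).div (Complex.continuous_conj.measurable.pow_const 2))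

theorem coe_meas_nuT (h : ℂ → ℂ) : Measurable (nuT h) := by
  unfold nuT
  refine Measurable.ite (measurableSet_lt measurable_const measurable_norm) ?_ measurable_const
  have h1 : Measurable fun z => deriv h (rf z) := (measurable_deriv h).comp coe_meas_rf
  exact (h1.div (Complex.continuous_conj.measurable.comp h1)).mul
    ((measurable_id.pow_const 2).div (Complex.continuous_conj.measurable.pow_const 2))

theorem coe_norm_div (a : ℂ) : ‖a / conj a‖ ≤ 1 := by
  rw [norm_div, RCLike.norm_conj]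
  exact div_self_le_one _

theorem coe_norm_sq (z : ℂ) : ‖z ^ 2 / conj z ^ 2‖ ≤ 1 := by
  rw [← div_pow, norm_pow]
  exact pow_le_one₀ (norm_nonneg _) (coe_norm_div z)

theorem coe_norm_nuT (h : ℂ → ℂ) (z : ℂ) : ‖nuT h z‖ ≤ 1 := by
  unfold nuT
  split_ifs
  · rw [norm_mul]
    exact mul_le_one₀ (coe_norm_div _) (norm_nonneg _) (coe_norm_sq z)
  · rw [norm_zero]; exact zero_le_one

theorem coe_nuT_in (h : ℂ → ℂ) {z : ℂ} (hz : ‖z‖ ≤ 1) : nuT h z = 0 := by
  unfold nuT
  rw [if_neg (not_lt.mpr hz)]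

theorem coe_nuT_out (h : ℂ → ℂ) {z : ℂ} (hz : 1 < ‖z‖) :
    nuT h z = deriv h (rf z) / conj (deriv h (rf z)) * (z ^ 2 / conj z ^ 2) := by
  unfold nuT
  rw [if_pos hz]

theorem coe_norm_sy {μ : ℂ → ℂ} {k : ℝ} {z : ℂ} (h : ‖μ (rf z)‖ ≤ k) : ‖sy μ z‖ ≤ k := by
  unfold sy
  rw [norm_mul, RCLike.norm_conj]
  calc ‖μ (rf z)‖ * ‖z ^ 2 / conj z ^ 2‖ ≤ ‖μ (rf z)‖ * 1 :=
        mul_le_mul_of_nonneg_left (coe_norm_sq z) (norm_nonneg _)
    _ ≤ k := by rw [mul_one]; exact h

/-- the transformation rule of the derivative of an abelian integral -/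
theorem coe_deriv (hSUB : StSUB) {A : SL} (hA : SU A) {h : ℂ → ℂ} (hh : DifferentiableOn ℂ h D)
    {c : ℂ} (hc : ∀ z ∈ D, h (mob A z) = h z + c) {w : ℂ} (hw : w ∈ D) :
    deriv h (mob A w) = deriv h w * den A w ^ 2 := by
  have hw1 : ‖w‖ < 1 := by simpa using hw
  have hd : den A w ≠ 0 := hSUB.2.2.2.1 A hA w hw1.le
  have hm : mob A w ∈ D := by
    have h1 := hSUB.2.2.2.2.1 A hA w hd
    have h2 : 0 < ‖den A w‖ ^ 2 := by positivity
    have h3 : 0 < 1 - ‖w‖ ^ 2 := by nlinarith [norm_nonneg w]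
    have h4 : 0 < 1 - ‖mob A w‖ ^ 2 := by
      rw [← h1] at h3
      exact (pos_iff_pos_of_mul_pos h3).mpr h2
    rw [mem_ball_zero_iff]
    nlinarith [norm_nonneg (mob A w)]
  have d1 : HasDerivAt h (deriv h (mob A w)) (mob A w) :=
    (hh.differentiableAt (Metric.isOpen_ball.mem_nhds hm)).hasDerivAt
  have d2 := d1.comp w (hSUB.2.1 A w hd)
  have d3 : HasDerivAt h (deriv h w) w :=
    (hh.differentiableAt (Metric.isOpen_ball.mem_nhds hw)).hasDerivAt
  have d4 : HasDerivAt (fun z => h z + c) (deriv h w) w := d3.add_const c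
  have d5 : HasDerivAt (h ∘ mob A) (deriv h w) w := by
    refine d4.congr_of_eventuallyEq ?_
    filter_upwards [Metric.isOpen_ball.mem_nhds hw] with z hz
    exact hc z hz
  have e := d2.unique d5
  rw [← e, mul_assoc, inv_mul_cancel₀ (pow_ne_zero _ hd), mul_one]

theorem coe_inv_nuT (hSUB : StSUB) {A : SL} (hA : SU A) {h : ℂ → ℂ} (hh : DifferentiableOn ℂ h D)
    {c : ℂ} (hc : ∀ z ∈ D, h (mob A z) = h z + c) : InvB A (nuT h) := by
  filter_upwards [coe_ae_one, coe_ae_zero, coe_ae_den A, coe_ae_num A] with z h1 h0 hd hn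
  have hrel := hSUB.2.2.2.2.1 A hA z hd
  have hdpos : 0 < ‖den A z‖ ^ 2 := by positivity
  rcases lt_or_gt_of_ne h1 with hz | hz
  · have hm : ‖mob A z‖ ≤ 1 := by
      have h3 : 0 < 1 - ‖z‖ ^ 2 := by nlinarith [norm_nonneg z]
      rw [← hrel] at h3
      have h4 : 0 < 1 - ‖mob A z‖ ^ 2 := (pos_iff_pos_of_mul_pos h3).mpr hdpos
      nlinarith [norm_nonneg (mob A z)]
    rw [coe_nuT_in h hz.le, coe_nuT_in h hm, zero_mul, zero_mul]
  · have hm : 1 < ‖mob A z‖ := by
      have h3 : 1 - ‖z‖ ^ 2 < 0 := by nlinarith [norm_nonneg z]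
      rw [← hrel] at h3
      have h4 : 1 - ‖mob A z‖ ^ 2 < 0 := by
        by_contra hcon
        have := mul_nonneg (not_lt.mp hcon) hdpos.le
        linarith
      nlinarith [norm_nonneg (mob A z)]
    have hmne := coe_mob_ne hn hd
    have hcz : conj z ≠ 0 := (map_ne_zero _).mpr h0
    have hcm : conj (mob A z) ≠ 0 := (map_ne_zero _).mpr hmne
    have hrf : rf (mob A z) = mob A (rf z) := (hSUB.2.2.2.2.2.1 A hA z h0).symm
    have hwD : rf z ∈ D := by
      rw [mem_ball_zero_iff]; exact coe_rf_lt hz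
    have hder := coe_deriv hSUB hA hh hc hwD
    have e := coe_den_rf hA h0 hd
    have e' : conj (den A (rf z)) * z = mob A z * den A z := by
      have := congrArg (starRingEnd ℂ) e
      simpa only [map_mul, map_pow, Complex.conj_conj] using this
    rw [coe_nuT_out h hz, coe_nuT_out h hm, hrf, hder]
    have hE : den A (rf z) ≠ 0 := hSUB.2.2.2.1 A hA _ (coe_rf_lt hz).le
    have hcE : conj (den A (rf z)) ≠ 0 := (map_ne_zero _).mpr hE
    rw [map_mul, map_pow, mul_div_mul_comm]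
    generalize deriv h (rf z) / conj (deriv h (rf z)) = q
    generalize mob A z = m at *
    generalize den A z = d at *
    generalize den A (rf z) = E at *
    have key : E ^ 2 / conj E ^ 2 * (m ^ 2 / conj m ^ 2) * d ^ 2 = z ^ 2 / conj z ^ 2 * conj d ^ 2 := by
      rw [div_mul_div_comm, div_mul_eq_mul_div, div_mul_eq_mul_div,
        div_eq_div_iff (mul_ne_zero (pow_ne_zero _ hcE) (pow_ne_zero _ hcm)) (pow_ne_zero _ hcz)]
      have s1 : (E * conj z) ^ 2 = (conj m * conj d) ^ 2 := by rw [e]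
      have s2 : (conj E * z) ^ 2 = (m * d) ^ 2 := by rw [e']
      linear_combination (m ^ 2 * d ^ 2) * s1 - (conj m ^ 2 * conj d ^ 2) * s2
    linear_combination q * key

theorem pCOE (hSUB : Pool.Agent.Helper61.QE.StSUB) : Pool.Agent.Helper61.QE.StCOE := by
  intro Γ _ s h κ k hsu hh hk hκ
  have hnu : ∀ γ, InvB (s γ) (nuT h) := by
    intro γ
    obtain ⟨c, hc⟩ := hh.2 γ
    exact coe_inv_nuT hSUB (hsu γ) hh.1 hc
  have htnu : ∀ t : ℂ, ∀ γ, InvB (s γ) (fun z => t * nuT h z) := by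
    intro t γ
    filter_upwards [hnu γ] with z hz
    linear_combination t * hz
  have hadd : ∀ (A : SL) (μ ν : ℂ → ℂ), InvB A μ → InvB A ν → InvB A (fun z => μ z + ν z) := by
    intro A μ ν h1 h2
    filter_upwards [h1, h2] with z hz1 hz2
    linear_combination hz1 + hz2
  have hmt : ∀ t : ℂ, Measurable (fun z => t * nuT h z) := fun t =>
    measurable_const.mul (coe_meas_nuT h)
  have hnt : ∀ (t z : ℂ), ‖t * nuT h z‖ ≤ ‖t‖ := by
    intro t z
    rw [norm_mul]
    calc ‖t‖ * ‖nuT h z‖ ≤ ‖t‖ * 1 :=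
          mul_le_mul_of_nonneg_left (coe_norm_nuT h z) (norm_nonneg _)
      _ = ‖t‖ := mul_one _
  have hsyout : ∀ (t z : ℂ), 1 < ‖z‖ → sy (fun w => t * nuT h w) z = 0 := by
    intro t z hz
    unfold sy
    beta_reduce
    rw [coe_nuT_in h (coe_rf_lt hz).le, mul_zero, map_zero, zero_mul]
  refine ⟨?_, ?_, ?_, ?_, ?_, ?_⟩
  · intro t
    refine ⟨⟨?_, ?_⟩, ?_⟩
    · exact hκ.bel.meas.add (hmt t)
    · intro z
      unfold muT
      rcases lt_or_ge 1 ‖z‖ with hz | hz
      · rw [hκ.out z hz.le, zero_add]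
        exact (hnt t z).trans (le_max_right _ _)
      · rw [coe_nuT_in h hz, mul_zero, add_zero]
        exact (hκ.bel.le z).trans (le_max_left _ _)
    · intro γ
      exact hadd _ _ _ (hκ.inv γ) (htnu t γ)
  · intro t
    refine ⟨⟨?_, ?_⟩, ?_, ?_, ?_, ?_⟩
    · exact (hmt t).add (coe_meas_sy (hmt t))
    · intro z
      unfold syX
      rcases lt_or_ge 1 ‖z‖ with hz | hz
      · rw [hsyout t z hz, add_zero]
        exact hnt t z
      · rw [coe_nuT_in h hz, mul_zero, zero_add]
        exact coe_norm_sy (hnt t _)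
    · intro γ
      exact hadd _ _ _ (htnu t γ) (coe_inv_sy hSUB (hsu γ) (htnu t γ))
    · filter_upwards [coe_ae_zero] with z h0
      exact coe_symm (fun w => t * nuT h w) h0
    · intro z hz
      unfold syX muT
      rw [hsyout t z hz, hκ.out z hz.le, add_zero, zero_add]
    · intro z hz h0
      have hz1 : ‖z‖ < 1 := by simpa using hz
      unfold syX sy
      beta_reduce
      rw [coe_nuT_in h hz1.le, coe_nuT_out h (coe_rf_gt hz1 h0), coe_rf_rf, mul_zero, zero_add]
      have hcz : conj z ≠ 0 := (map_ne_zero _).mpr h0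
      have e2 : rf z ^ 2 / conj (rf z) ^ 2 = z ^ 2 / conj z ^ 2 := by
        unfold rf
        rw [map_div₀, map_one, Complex.conj_conj]
        field_simp
      rw [e2]
      simp only [map_mul, map_div₀, map_pow, Complex.conj_conj]
      have e3 : conj z ^ 2 / z ^ 2 * (z ^ 2 / conj z ^ 2) = 1 := by
        field_simp
      linear_combination (conj t * (conj (deriv h z) / deriv h z)) * e3
  · refine ⟨hκ.bel.meas.add (coe_meas_sy hκ.bel.meas), ?_⟩
    intro z
    unfold syY
    rcases lt_or_ge ‖z‖ 1 with hz | hz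
    · by_cases h0 : z = 0
      · have : sy κ z = 0 := by
          unfold sy
          rw [h0]
          simp
        rw [this, add_zero]
        exact hκ.bel.le z
      · have : sy κ z = 0 := by
          unfold sy
          rw [hκ.out _ (coe_rf_gt hz h0).le, map_zero, zero_mul]
        rw [this, add_zero]
        exact hκ.bel.le z
    · rw [hκ.out z hz, zero_add]
      exact coe_norm_sy (hκ.bel.le _)
  · intro γ
    exact hadd _ _ _ (hκ.inv γ) (coe_inv_sy hSUB (hsu γ) (hκ.inv γ))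
  · filter_upwards [coe_ae_zero] with z h0
    exact coe_symm κ h0
  · intro z hz t
    have hz1 : ‖z‖ < 1 := by simpa using hz
    unfold syY muT
    rw [coe_nuT_in h hz1.le, mul_zero]
    by_cases h0 : z = 0
    · have : sy κ z = 0 := by
        unfold sy
        rw [h0]
        simp
      rw [this]
    · have : sy κ z = 0 := by
        unfold sy
        rw [hκ.out _ (coe_rf_gt hz1 h0).le, map_zero, zero_mul]
      rw [this]

end Pool.Agent.Helper21.QE
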